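import Pool.Agent.Helper70.SUB.SheetG

/-!
Project SUB (captain helper70): auxiliary facts for the rows BOX and NDG.
-/

set_option autoImplicit false

namespace Pool.Agent.Helper97.SUB

open Finset Matrix Pool.Agent.Helper70.SUB

theorem none_mem (S : Finset ℕ) : none ∈ plc S := by
  unfold plc; exact Finset.none_mem_insertNone

theorem some_mem {S : Finset ℕ} {p : ℕ} (h : p ∈ S) : some p ∈ plc S := by
  unfold plc; exact Finset.some_mem_insertNone.mpr h

theorem prod_plc {R : Type} [CommMonoid R] (S : Finset ℕ) (f : Option ℕ → R) :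
    ∏ v ∈ plc S, f v = f none * ∏ p ∈ S, f (some p) := by
  unfold plc; exact Finset.prod_insertNone _ _

theorem common_den (n : ℕ) (A : Matrix (Fin n) (Fin n) ℚ) :
    ∃ (D : ℕ) (N : Matrix (Fin n) (Fin n) ℤ), 1 ≤ D ∧ ∀ i k, (D : ℚ) * A i k = (N i k : ℚ) := by
  set D : ℕ := ∏ i, ∏ k, (A i k).den with hDdef
  have key : ∀ i k, ∃ z : ℤ, (D : ℚ) * A i k = (z : ℚ) := by
    intro i k
    have h1 : (A i k).den ∣ D :=
      (Finset.dvd_prod_of_mem (fun k => (A i k).den) (Finset.mem_univ k)).trans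
        (Finset.dvd_prod_of_mem (fun i => ∏ k, (A i k).den) (Finset.mem_univ i))
    obtain ⟨c, hc⟩ := h1
    refine ⟨c * (A i k).num, ?_⟩
    rw [hc]
    push_cast
    have h2 : (((A i k).den : ℕ) : ℚ) * A i k = (A i k).num := by
      rw [mul_comm]; exact Rat.mul_den_eq_num _
    calc ((A i k).den : ℚ) * c * A i k = c * (((A i k).den : ℚ) * A i k) := by ring
      _ = c * (A i k).num := by rw [h2]
  choose z hz using key
  refine ⟨D, fun i k => z i k, ?_, fun i k => hz i k⟩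
  exact Nat.one_le_iff_ne_zero.mpr (Finset.prod_ne_zero_iff.mpr fun i _ =>
    Finset.prod_ne_zero_iff.mpr fun k _ => (A i k).den_ne_zero)

/-- Liouville's inequality at the real place -/
theorem liou (n : ℕ) (A : Matrix (Fin n) (Fin n) ℚ) (hA : A.det ≠ 0) :
    ∃ D : ℝ, 1 ≤ D ∧ ∀ x : Fin n → ℤ, x ≠ 0 → ∃ i, 1 ≤ D * av none (A.mulVec (cv x) i) := by
  obtain ⟨D, N, hD, hN⟩ := common_den n A
  refine ⟨D, by exact_mod_cast hD, fun x hx => ?_⟩
  have h1 : A.mulVec (cv x) ≠ 0 := by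
    intro h
    have h2 : cv x = 0 := Matrix.eq_zero_of_mulVec_eq_zero hA h
    apply hx
    funext i
    have := congrFun h2 i
    simp only [cv, Pi.zero_apply] at this
    exact_mod_cast this
  obtain ⟨i, hi⟩ := Function.ne_iff.mp h1
  refine ⟨i, ?_⟩
  have h3 : (D : ℚ) * A.mulVec (cv x) i = ((N.mulVec x i : ℤ) : ℚ) := by
    simp only [Matrix.mulVec, dotProduct, cv]
    push_cast
    rw [Finset.mul_sum]
    exact Finset.sum_congr rfl fun k _ => by rw [← hN i k]; ring
  have hD0 : (D : ℚ) ≠ 0 := by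
    have : 0 < D := hD
    exact_mod_cast this.ne'
  have h4 : N.mulVec x i ≠ 0 := by
    intro h
    rw [h] at h3
    rcases mul_eq_zero.mp (h3.trans (by simp)) with h5 | h5
    · exact hD0 h5
    · exact hi h5
  have h5 : (1 : ℤ) ≤ |N.mulVec x i| := Int.one_le_abs h4
  have h6 : (1 : ℝ) ≤ |((N.mulVec x i : ℤ) : ℝ)| := by
    have : ((1 : ℤ) : ℝ) ≤ ((|N.mulVec x i| : ℤ) : ℝ) := by exact_mod_cast h5
    rw [Int.cast_abs] at this
    simpa using this
  have h7 : ((N.mulVec x i : ℤ) : ℝ) = (D : ℝ) * ((A.mulVec (cv x) i : ℚ) : ℝ) := by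
    have : (((N.mulVec x i : ℤ) : ℚ) : ℝ) = (((D : ℚ) * A.mulVec (cv x) i : ℚ) : ℝ) := by rw [h3]
    push_cast at this
    exact_mod_cast this
  rw [h7, abs_mul] at h6
  simp only [av]
  have h8 : |(D : ℝ)| = D := abs_of_nonneg (by positivity)
  rw [h8] at h6
  exact h6

end Pool.Agent.Helper97.SUB
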